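import Pool.Agent.X257.Whitman

/-!
# The lattice of varieties of implication zroupoids satisfies no non-trivial lattice identity

In the subvariety with `x → 0 ≈ 0`, `(x → y) → z ≈ 0`, `x → (x → x) ≈ 0` and
`x → wₖ(a, b) ≈ 0` for all the words `wₖ(a, b) = a → (b → ⋯ → (b → a))` (`k + 1` letters `b`), the
words `wₖ` may be identified arbitrarily. So the dual of the lattice of the equivalence relations
on a finite set is embedded. A theorem of Whitman says that these lattices satisfy no non-trivial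
lattice identity (proved in `Pool/Agent/X257/Whitman.lean`).
-/

set_option autoImplicit false

namespace Pool.Agent.Results.MP_79490a_al.NoLatticeIdentity

open Pool.Agent.X257.Whitman

universe u

/-- Algebras of type `(2,0)`. -/
structure ZAlg : Type 1 where
  carrier : Type
  imp : carrier → carrier → carrier
  zero : carrier

/-- Terms of type `(2,0)` in the variables `0, 1, 2, …`. -/
inductive Term : Type
  | var : ℕ → Term
  | zero : Term
  | imp : Term → Term → Term

/-- The value of a term. -/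
def Term.eval (A : ZAlg) (v : ℕ → A.carrier) : Term → A.carrier
  | .var n => v n
  | .zero => A.zero
  | .imp s t => A.imp (s.eval A v) (t.eval A v)

/-- The algebra satisfies the identity `s ≈ t`. -/
def Sat (A : ZAlg) (s t : Term) : Prop := ∀ v : ℕ → A.carrier, s.eval A v = t.eval A v

/-- `x' = x → 0` -/
def ZAlg.neg (A : ZAlg) (x : A.carrier) : A.carrier := A.imp x A.zero

/-- Implication zroupoids. -/
def IsIZ (A : ZAlg) : Prop :=
  (∀ x y z : A.carrier, A.imp (A.imp x y) z =
    A.neg (A.imp (A.imp (A.neg z) x) (A.neg (A.imp y z)))) ∧ A.neg (A.neg A.zero) = A.zero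

/-- A subvariety of `IZ`: the class of all implication zroupoids which satisfy a set of
identities. -/
def IsSubvariety (K : Set ZAlg) : Prop :=
  ∃ E : Set (Term × Term), K = {A | IsIZ A ∧ ∀ e ∈ E, Sat A e.1 e.2}

/-- The subvarieties of `IZ`, ordered by inclusion. -/
def SubIZ : Type 1 := {K : Set ZAlg // IsSubvariety K}

lemma isSubvariety_inter {K K' : Set ZAlg} (h : IsSubvariety K) (h' : IsSubvariety K') :
    IsSubvariety (K ∩ K') := by
  obtain ⟨E, rfl⟩ := h
  obtain ⟨E', rfl⟩ := h'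
  refine ⟨E ∪ E', ?_⟩
  ext A
  constructor
  · rintro ⟨⟨h1, h2⟩, -, h3⟩
    exact ⟨h1, fun e he => he.elim (h2 e) (h3 e)⟩
  · rintro ⟨h1, h2⟩
    exact ⟨⟨h1, fun e he => h2 e (Or.inl he)⟩, h1, fun e he => h2 e (Or.inr he)⟩

/-- The variety generated by the union of two subvarieties: the least subvariety that contains
both. -/
def gen (K K' : Set ZAlg) : Set ZAlg :=
  {A | ∀ K'' : Set ZAlg, IsSubvariety K'' → K ⊆ K'' → K' ⊆ K'' → A ∈ K''}

lemma isSubvariety_gen {K K' : Set ZAlg} (h : IsSubvariety K) (h' : IsSubvariety K') :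
    IsSubvariety (gen K K') := by
  refine ⟨{e | (∀ A ∈ K, Sat A e.1 e.2) ∧ ∀ A ∈ K', Sat A e.1 e.2}, ?_⟩
  ext A
  constructor
  · intro hA
    refine hA {A | IsIZ A ∧ ∀ e ∈ {e : Term × Term | (∀ A ∈ K, Sat A e.1 e.2) ∧
      ∀ A ∈ K', Sat A e.1 e.2}, Sat A e.1 e.2} ⟨_, rfl⟩ ?_ ?_
    · intro B hB
      refine ⟨?_, fun e he => he.1 B hB⟩
      obtain ⟨E, rfl⟩ := h
      exact hB.1
    · intro B hB
      refine ⟨?_, fun e he => he.2 B hB⟩
      obtain ⟨E, rfl⟩ := h'
      exact hB.1
  · rintro ⟨h1, h2⟩ K'' ⟨E, rfl⟩ h3 h4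
    exact ⟨h1, fun e he => h2 e ⟨fun B hB => (h3 hB).2 e he, fun B hB => (h4 hB).2 e he⟩⟩

/-- The lattice of the subvarieties of `IZ`: the order is the inclusion, the meet the
intersection and the join the variety generated by the union. -/
instance : Lattice SubIZ where
  le K K' := K.1 ⊆ K'.1
  le_refl _ := subset_rfl
  le_trans _ _ _ h h' := Set.Subset.trans h h'
  le_antisymm _ _ h h' := Subtype.ext (Set.Subset.antisymm h h')
  inf K K' := ⟨K.1 ∩ K'.1, isSubvariety_inter K.2 K'.2⟩
  inf_le_left _ _ := Set.inter_subset_left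
  inf_le_right _ _ := Set.inter_subset_right
  le_inf _ _ _ h h' := Set.subset_inter h h'
  sup K K' := ⟨gen K.1 K'.1, isSubvariety_gen K.2 K'.2⟩
  le_sup_left _ _ := fun _ hA _ _ h _ => h hA
  le_sup_right _ _ := fun _ hA _ _ _ h => h hA
  sup_le _ _ K'' h h' := fun _ hA => hA K''.1 K''.2 h h'

/-! ### The words -/

/-- `b → (b → ⋯ → (b → a))` with `k` letters `b`. -/
def bT : ℕ → Term
  | 0 => .var 0
  | k + 1 => .imp (.var 1) (bT k)

/-- `a → (b → ⋯ → (b → a))` with `k + 1` letters `b`. -/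
def wT (k : ℕ) : Term := .imp (.var 0) (bT (k + 1))

/-- The word `b ⋯ b a` with `k` letters `b`. -/
def bW (a b : ℕ) : ℕ → List ℕ
  | 0 => [a]
  | k + 1 => b :: bW a b k

/-- The word `a b ⋯ b a` with `k + 1` letters `b`. -/
def wW (a b k : ℕ) : List ℕ := a :: bW a b (k + 1)

lemma length_bW (a b k : ℕ) : (bW a b k).length = k + 1 := by
  induction k with
  | zero => rfl
  | succ k ih => simp [bW, ih]

lemma wW_inj {a b k a' b' k' : ℕ} (h : wW a b k = wW a' b' k') : a = a' ∧ b = b' ∧ k = k' := by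
  have hl := congrArg List.length h
  simp only [wW, List.length_cons, length_bW] at hl
  simp only [wW, bW, List.cons.injEq] at h
  exact ⟨h.1, h.2.1, by omega⟩

/-- The words which are zero although the word without the first letter is not. -/
def Bad (c : ℕ) (w : List ℕ) : Prop := (∃ a b k, w = wW a b k) ∨ w = [c, c]

/-- The multiplication on the words; `none` is zero. -/
noncomputable def mul : Option (List ℕ) → Option (List ℕ) → Option (List ℕ)
  | some [c], some w => open Classical in if w = [] ∨ Bad c w then none else some (c :: w)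
  | _, _ => none

lemma mul_none (u : Option (List ℕ)) : mul u none = none := by
  rcases u with _ | (_ | ⟨c, _ | ⟨d, u⟩⟩) <;> rfl

lemma none_mul (u : Option (List ℕ)) : mul none u = none := rfl

lemma long_mul (c d : ℕ) (u : List ℕ) (w : Option (List ℕ)) :
    mul (some (c :: d :: u)) w = none := rfl

lemma nil_mul (w : Option (List ℕ)) : mul (some []) w = none := rfl

/-- A product is zero or a word with at least two letters. -/
lemma mul_cases (u w : Option (List ℕ)) :
    mul u w = none ∨ ∃ c d v, mul u w = some (c :: d :: v) := by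
  rcases u with _ | (_ | ⟨c, _ | ⟨d, u⟩⟩)
  · exact Or.inl rfl
  · exact Or.inl rfl
  · rcases w with _ | w
    · exact Or.inl rfl
    · unfold mul
      by_cases h : w = [] ∨ Bad c w
      · left; simp only [if_pos h]
      · right
        simp only [if_neg h]
        push Not at h
        obtain ⟨d, v, rfl⟩ := List.exists_cons_of_ne_nil h.1
        exact ⟨c, d, v, rfl⟩
  · exact Or.inl rfl

lemma mul_mul (u v w : Option (List ℕ)) : mul (mul u v) w = none := by
  rcases mul_cases u v with h | ⟨c, d, x, h⟩ <;> rw [h] <;> rfl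

section model

variable {X : Type} (j : X → ℕ) (hj : Function.Injective j) (θ : Setoid X)

/-- The congruence on the words. -/
def Rel (u v : Option (List ℕ)) : Prop :=
  u = v ∨ ∃ a b x y, a ≠ b ∧ θ x y ∧ u = some (wW a b (j x)) ∧ v = some (wW a b (j y))

include hj in
lemma rel_equiv : Equivalence (Rel j θ) where
  refl u := Or.inl rfl
  symm := by
    rintro u v (h | ⟨a, b, x, y, hab, hxy, h1, h2⟩)
    · exact Or.inl h.symm
    · exact Or.inr ⟨a, b, y, x, hab, θ.symm hxy, h2, h1⟩
  trans := by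
    rintro u v w (rfl | ⟨a, b, x, y, hab, hxy, rfl, rfl⟩) h'
    · exact h'
    · rcases h' with rfl | ⟨a', b', x', y', hab', hxy', h1, h2⟩
      · exact Or.inr ⟨a, b, x, y, hab, hxy, rfl, rfl⟩
      · obtain ⟨rfl, rfl, h3⟩ := wW_inj (Option.some.inj h1)
        have := hj h3
        subst this
        exact Or.inr ⟨a, b, x, y', hab, θ.trans hxy hxy', rfl, h2⟩

lemma mul_wW (u : Option (List ℕ)) (a b k : ℕ) : mul u (some (wW a b k)) = none := by
  rcases u with _ | (_ | ⟨c, _ | ⟨d, u⟩⟩)
  · rfl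
  · rfl
  · unfold mul
    simp only
    rw [if_pos (show wW a b k = [] ∨ Bad c (wW a b k) from Or.inr (Or.inl ⟨a, b, k, rfl⟩))]
  · rfl

lemma wW_mul (u : Option (List ℕ)) (a b k : ℕ) : mul (some (wW a b k)) u = none := rfl

lemma rel_mul {u u' v v' : Option (List ℕ)} (h : Rel j θ u u') (h' : Rel j θ v v') :
    Rel j θ (mul u v) (mul u' v') := by
  left
  rcases h with rfl | ⟨a, b, x, y, hab, hxy, rfl, rfl⟩
  · rcases h' with rfl | ⟨a, b, x, y, hab, hxy, rfl, rfl⟩
    · rfl
    · rw [mul_wW, mul_wW]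
  · rfl

/-- The model: the words modulo the congruence. -/
noncomputable def model : ZAlg where
  carrier := Quotient (⟨Rel j θ, rel_equiv j hj θ⟩ : Setoid (Option (List ℕ)))
  imp := Quotient.map₂ mul fun _ _ h _ _ h' => rel_mul j θ h h'
  zero := Quotient.mk _ none

/-- The class of a word. -/
def cls (u : Option (List ℕ)) : (model j hj θ).carrier := Quotient.mk _ u

lemma cls_imp (u v : Option (List ℕ)) :
    (model j hj θ).imp (cls j hj θ u) (cls j hj θ v) = cls j hj θ (mul u v) := rfl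

lemma cls_zero : (model j hj θ).zero = cls j hj θ none := rfl

lemma cls_surj (a : (model j hj θ).carrier) : ∃ u, a = cls j hj θ u := by
  induction a using Quotient.inductionOn with
  | h u => exact ⟨u, rfl⟩

lemma model_isIZ : IsIZ (model j hj θ) := by
  constructor
  · intro x y z
    obtain ⟨x, rfl⟩ := cls_surj j hj θ x
    obtain ⟨y, rfl⟩ := cls_surj j hj θ y
    obtain ⟨z, rfl⟩ := cls_surj j hj θ z
    unfold ZAlg.neg
    simp only [cls_imp, cls_zero, mul_mul, mul_none]
  · unfold ZAlg.neg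
    simp only [cls_imp, cls_zero, mul_none]

/-- The value of a term in the free algebra of words. -/
noncomputable def nf : Term → Option (List ℕ)
  | .var n => some [n]
  | .zero => none
  | .imp s t => mul (nf s) (nf t)

lemma eval_model (t : Term) :
    t.eval (model j hj θ) (fun n => cls j hj θ (some [n])) = cls j hj θ (nf t) := by
  induction t with
  | var n => rfl
  | zero => rfl
  | imp s t hs ht => rw [Term.eval, hs, ht, cls_imp]; rfl

lemma rel_of_sat {s t : Term} (h : Sat (model j hj θ) s t) : Rel j θ (nf s) (nf t) := by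
  have := h (fun n => cls j hj θ (some [n]))
  rw [eval_model, eval_model] at this
  exact Quotient.exact this

end model

/-- The defining identities. -/
def ids {X : Type} (j : X → ℕ) (θ : Setoid X) : Set (Term × Term) :=
  {e | e = (.imp (.var 0) .zero, .zero) ∨ e = (.imp (.imp (.var 0) (.var 1)) (.var 2), .zero) ∨
    e = (.imp (.var 0) (.imp (.var 0) (.var 0)), .zero) ∨
    (∃ k, e = (.imp (.var 2) (wT k), .zero)) ∨ ∃ x y, θ x y ∧ e = (wT (j x), wT (j y))}

/-- The subvariety defined by these identities. -/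
def Ψ {X : Type} (j : X → ℕ) (θ : Setoid X) : SubIZ :=
  ⟨{A | IsIZ A ∧ ∀ e ∈ ids j θ, Sat A e.1 e.2}, ids j θ, rfl⟩

/-! ### The models belong to the subvarieties -/

lemma getLast_bW (a b k : ℕ) : (bW a b k).getLast? = some a := by
  induction k with
  | zero => rfl
  | succ k ih => rw [bW, List.getLast?_cons, ih]; rfl

lemma getLast_wW (a b k : ℕ) : (wW a b k).getLast? = some a := by
  rw [wW, List.getLast?_cons, getLast_bW]; rfl

lemma bW_ne_nil (a b k : ℕ) : bW a b k ≠ [] := by cases k <;> simp [bW]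

lemma not_bad {c d : ℕ} (h : c ≠ d) (e k : ℕ) (he : k = 0 ∨ e = c ∨ e = d) :
    ¬ Bad e (bW c d k) := by
  rintro (⟨a, b, k', h1⟩ | h1)
  · have h2 := congrArg List.getLast? h1
    rw [getLast_bW, getLast_wW] at h2
    have h3 : c = a := Option.some.inj h2
    cases k with
    | zero =>
      have := congrArg List.length h1
      simp [bW, wW, length_bW] at this
    | succ k =>
      simp only [bW, wW, List.cons.injEq] at h1
      exact h (h3.trans h1.1.symm)
  · cases k with
    | zero => simp [bW] at h1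
    | succ k =>
      have h2 := congrArg List.getLast? h1
      rw [getLast_bW] at h2
      have h3 : c = e := by simpa using h2
      simp only [bW, List.cons.injEq] at h1
      exact h (h3.trans h1.1.symm)

lemma mul_bW {c d : ℕ} (h : c ≠ d) (k : ℕ) :
    mul (some [d]) (some (bW c d k)) = some (bW c d (k + 1)) := by
  unfold mul
  simp only
  rw [if_neg]
  · rfl
  · rintro (h1 | h1)
    · exact bW_ne_nil c d k h1
    · exact not_bad h d k (Or.inr (Or.inr rfl)) h1

lemma mul_cW {c d : ℕ} (h : c ≠ d) (k : ℕ) :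
    mul (some [c]) (some (bW c d (k + 1))) = some (wW c d k) := by
  unfold mul
  simp only
  rw [if_neg]
  · rfl
  · rintro (h1 | h1)
    · exact bW_ne_nil c d _ h1
    · exact not_bad h c _ (Or.inr (Or.inl rfl)) h1

lemma mul_two (c : ℕ) : mul (some [c]) (some [c]) = some [c, c] := by
  unfold mul
  simp only
  rw [if_neg]
  rintro (h | h | h)
  · simp at h
  · obtain ⟨a, b, k, h⟩ := h
    have := congrArg List.length h
    simp [wW, length_bW] at this
  · simp at h

lemma mul_three (c : ℕ) : mul (some [c]) (some [c, c]) = none := by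
  unfold mul
  simp only
  rw [if_pos (show [c, c] = [] ∨ Bad c [c, c] from Or.inr (Or.inr rfl))]

/-- The value of `bT k` on words. -/
noncomputable def bV (u0 u1 : Option (List ℕ)) : ℕ → Option (List ℕ)
  | 0 => u0
  | k + 1 => mul u1 (bV u0 u1 k)

lemma bV_letters {c d : ℕ} (h : c ≠ d) (k : ℕ) :
    bV (some [c]) (some [d]) k = some (bW c d k) := by
  induction k with
  | zero => rfl
  | succ k ih => rw [bV, ih, mul_bW h]

lemma bV_same (c k : ℕ) : bV (some [c]) (some [c]) (k + 2) = none := by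
  induction k with
  | zero => rw [bV, bV, bV, mul_two, mul_three]
  | succ k ih => rw [bV, ih, mul_none]

lemma wV_same (c k : ℕ) : mul (some [c]) (bV (some [c]) (some [c]) (k + 1)) = none := by
  cases k with
  | zero => rw [bV, bV, mul_two, mul_three]
  | succ k => rw [bV_same, mul_none]

/-- The value of `wT k` on words. -/
lemma wV_cases (u0 u1 : Option (List ℕ)) :
    (∀ k, mul u0 (bV u0 u1 (k + 1)) = none) ∨
    ∃ c d, c ≠ d ∧ ∀ k, mul u0 (bV u0 u1 (k + 1)) = some (wW c d k) := by
  rcases u0 with _ | (_ | ⟨c, _ | ⟨c', u0⟩⟩)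
  · exact Or.inl fun _ => rfl
  · exact Or.inl fun _ => rfl
  · rcases u1 with _ | (_ | ⟨d, _ | ⟨d', u1⟩⟩)
    · exact Or.inl fun k => mul_none _
    · exact Or.inl fun k => mul_none _
    · by_cases h : c = d
      · subst h
        exact Or.inl fun k => wV_same c k
      · exact Or.inr ⟨c, d, h, fun k => by rw [bV_letters h, mul_cW h]⟩
    · exact Or.inl fun k => mul_none _
  · exact Or.inl fun _ => rfl

section

variable {X : Type} (j : X → ℕ) (hj : Function.Injective j) (θ : Setoid X)

lemma eval_bT (σ : ℕ → (model j hj θ).carrier) (u0 u1 : Option (List ℕ))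
    (h0 : σ 0 = cls j hj θ u0) (h1 : σ 1 = cls j hj θ u1) (k : ℕ) :
    (bT k).eval (model j hj θ) σ = cls j hj θ (bV u0 u1 k) := by
  induction k with
  | zero => exact h0
  | succ k ih =>
    change (model j hj θ).imp (σ 1) ((bT k).eval _ σ) = _
    rw [ih, h1, cls_imp]; rfl

lemma eval_wT (σ : ℕ → (model j hj θ).carrier) (u0 u1 : Option (List ℕ))
    (h0 : σ 0 = cls j hj θ u0) (h1 : σ 1 = cls j hj θ u1) (k : ℕ) :
    (wT k).eval (model j hj θ) σ = cls j hj θ (mul u0 (bV u0 u1 (k + 1))) := by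
  change (model j hj θ).imp (σ 0) ((bT (k + 1)).eval _ σ) = _
  rw [eval_bT j hj θ σ u0 u1 h0 h1, h0, cls_imp]

lemma model_mem : model j hj θ ∈ (Ψ j θ).1 := by
  refine ⟨model_isIZ j hj θ, ?_⟩
  rintro e (rfl | rfl | rfl | ⟨k, rfl⟩ | ⟨x, y, hxy, rfl⟩) σ
  · obtain ⟨u, hu⟩ := cls_surj j hj θ (σ 0)
    change (model j hj θ).imp (σ 0) (model j hj θ).zero = (model j hj θ).zero
    rw [hu, cls_zero, cls_imp, mul_none]
  · obtain ⟨u, hu⟩ := cls_surj j hj θ (σ 0)
    obtain ⟨v, hv⟩ := cls_surj j hj θ (σ 1)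
    obtain ⟨w, hw⟩ := cls_surj j hj θ (σ 2)
    change (model j hj θ).imp ((model j hj θ).imp (σ 0) (σ 1)) (σ 2) = (model j hj θ).zero
    rw [hu, hv, hw, cls_zero, cls_imp, cls_imp, mul_mul]
  · obtain ⟨u, hu⟩ := cls_surj j hj θ (σ 0)
    change (model j hj θ).imp (σ 0) ((model j hj θ).imp (σ 0) (σ 0)) = (model j hj θ).zero
    rw [hu, cls_zero, cls_imp, cls_imp]
    congr 1
    rcases u with _ | (_ | ⟨c, _ | ⟨d, u⟩⟩)
    · rfl
    · rfl
    · rw [mul_two, mul_three]
    · rfl
  · obtain ⟨u, hu⟩ := cls_surj j hj θ (σ 0)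
    obtain ⟨v, hv⟩ := cls_surj j hj θ (σ 1)
    obtain ⟨w, hw⟩ := cls_surj j hj θ (σ 2)
    change (model j hj θ).imp (σ 2) ((wT k).eval _ σ) = (model j hj θ).zero
    rw [eval_wT j hj θ σ u v hu hv, hw, cls_zero, cls_imp]
    rcases wV_cases u v with h | ⟨c, d, -, h⟩
    · rw [h, mul_none]
    · rw [h, mul_wW]
  · obtain ⟨u, hu⟩ := cls_surj j hj θ (σ 0)
    obtain ⟨v, hv⟩ := cls_surj j hj θ (σ 1)
    change (wT (j x)).eval _ σ = (wT (j y)).eval _ σ
    rw [eval_wT j hj θ σ u v hu hv, eval_wT j hj θ σ u v hu hv]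
    apply Quotient.sound
    rcases wV_cases u v with h | ⟨c, d, hcd, h⟩
    · rw [h, h]
    · rw [h, h]; exact Or.inr ⟨c, d, x, y, hcd, hxy, rfl, rfl⟩

end

lemma nf_bT (k : ℕ) : nf (bT k) = some (bW 0 1 k) := by
  induction k with
  | zero => rfl
  | succ k ih =>
    change mul (some [1]) (nf (bT k)) = _
    rw [ih, mul_bW (by decide)]

lemma nf_wT (k : ℕ) : nf (wT k) = some (wW 0 1 k) := by
  change mul (some [0]) (nf (bT (k + 1))) = _
  rw [nf_bT, mul_cW (by decide)]

/-! ### Soundness -/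

section sound

variable {X : Type} {j : X → ℕ} {θ : Setoid X} {A : ZAlg} (v : ℕ → A.carrier)

/-- The value of a word. -/
def valL : List ℕ → A.carrier
  | [] => A.zero
  | [c] => v c
  | c :: d :: w => A.imp (v c) (valL (d :: w))

lemma valL_cons (c : ℕ) {w : List ℕ} (h : w ≠ []) : valL v (c :: w) = A.imp (v c) (valL v w) := by
  cases w with
  | nil => exact absurd rfl h
  | cons d w => rfl

def val : Option (List ℕ) → A.carrier
  | none => A.zero
  | some w => valL v w

lemma eval_bT' (σ : ℕ → A.carrier) {a b : ℕ} (h0 : σ 0 = v a) (h1 : σ 1 = v b) (k : ℕ) :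
    (bT k).eval A σ = valL v (bW a b k) := by
  induction k with
  | zero => exact h0
  | succ k ih =>
    change A.imp (σ 1) ((bT k).eval A σ) = valL v (b :: bW a b k)
    rw [valL_cons v b (bW_ne_nil a b k), ih, h1]

lemma eval_wT' (σ : ℕ → A.carrier) {a b : ℕ} (h0 : σ 0 = v a) (h1 : σ 1 = v b) (k : ℕ) :
    (wT k).eval A σ = valL v (wW a b k) := by
  change A.imp (σ 0) ((bT (k + 1)).eval A σ) = valL v (a :: bW a b (k + 1))
  rw [valL_cons v a (bW_ne_nil a b _), eval_bT' v σ h0 h1, h0]

variable (hA : A ∈ (Ψ j θ).1)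
include hA

lemma imp_zero (x : A.carrier) : A.imp x A.zero = A.zero :=
  hA.2 _ (Or.inl rfl) (fun _ => x)

lemma imp_imp' (x y z : A.carrier) : A.imp (A.imp x y) z = A.zero :=
  hA.2 _ (Or.inr (Or.inl rfl)) (fun n => if n = 0 then x else if n = 1 then y else z)

lemma zero_imp (x : A.carrier) : A.imp A.zero x = A.zero := by
  have h := imp_imp' hA A.zero A.zero x
  rwa [imp_zero hA] at h

lemma val_mul {u w : Option (List ℕ)} (hu : u ≠ some []) (hw : w ≠ some []) :
    val v (mul u w) = A.imp (val v u) (val v w) := by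
  rcases u with _ | (_ | ⟨c, _ | ⟨d, u⟩⟩)
  · exact (zero_imp hA _).symm
  · exact absurd rfl hu
  · rcases w with _ | w
    · exact (imp_zero hA _).symm
    · have hw' : w ≠ [] := fun e => hw (by rw [e])
      unfold mul
      simp only
      by_cases hb : w = [] ∨ Bad c w
      · rw [if_pos hb]
        rcases hb with hb | ⟨a, b, k, rfl⟩ | rfl
        · exact absurd hb hw'
        · have h := hA.2 _ (Or.inr (Or.inr (Or.inr (Or.inl ⟨k, rfl⟩))))
            (fun n => if n = 0 then v a else if n = 1 then v b else v c)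
          change A.imp _ ((wT k).eval A _) = A.zero at h
          rw [eval_wT' v (a := a) (b := b) _ rfl rfl k] at h
          exact h.symm
        · exact (hA.2 _ (Or.inr (Or.inr (Or.inl rfl))) (fun _ => v c)).symm
      · rw [if_neg hb]
        exact valL_cons v c hw'
  · change A.zero = A.imp (A.imp _ _) _
    exact (imp_imp' hA _ _ _).symm

lemma eval_nf (t : Term) : nf t ≠ some [] ∧ t.eval A v = val v (nf t) := by
  induction t with
  | var n => exact ⟨by simp [nf], rfl⟩
  | zero => exact ⟨by simp [nf], rfl⟩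
  | imp s t hs ht =>
    refine ⟨?_, ?_⟩
    · change mul (nf s) (nf t) ≠ some []
      rcases mul_cases (nf s) (nf t) with h | ⟨c, d, x, h⟩ <;> rw [h] <;> simp
    · change A.imp (s.eval A v) (t.eval A v) = val v (mul (nf s) (nf t))
      rw [val_mul v hA hs.1 ht.1, hs.2, ht.2]

end sound

/-- The identities `s ≈ t` with related normal forms hold in the subvariety. -/
lemma sat_of_rel {X : Type} {j : X → ℕ} {θ : Setoid X} {A : ZAlg} (hA : A ∈ (Ψ j θ).1)
    {s t : Term} (h : Rel j θ (nf s) (nf t)) : Sat A s t := by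
  intro v
  rw [(eval_nf v hA s).2, (eval_nf v hA t).2]
  rcases h with h | ⟨a, b, x, y, -, hxy, h1, h2⟩
  · rw [h]
  · rw [h1, h2]
    have h3 := hA.2 _ (Or.inr (Or.inr (Or.inr (Or.inr ⟨x, y, hxy, rfl⟩))))
      (fun n => if n = 0 then v a else v b)
    change (wT (j x)).eval A _ = (wT (j y)).eval A _ at h3
    rw [eval_wT' v (a := a) (b := b) _ rfl rfl, eval_wT' v (a := a) (b := b) _ rfl rfl] at h3
    exact h3

section hom

variable {X : Type} (j : X → ℕ)

lemma Ψ_anti {θ θ' : Setoid X} (h : θ ≤ θ') : Ψ j θ' ≤ Ψ j θ := by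
  rintro A ⟨h1, h2⟩
  refine ⟨h1, ?_⟩
  rintro e (he | he | he | he | ⟨x, y, hxy, he⟩)
  · exact h2 e (Or.inl he)
  · exact h2 e (Or.inr (Or.inl he))
  · exact h2 e (Or.inr (Or.inr (Or.inl he)))
  · exact h2 e (Or.inr (Or.inr (Or.inr (Or.inl he))))
  · exact h2 e (Or.inr (Or.inr (Or.inr (Or.inr ⟨x, y, h hxy, he⟩))))

lemma Ψ_sup (θ θ' : Setoid X) : Ψ j (θ ⊔ θ') = Ψ j θ ⊓ Ψ j θ' := by
  apply le_antisymm
  · exact le_inf (Ψ_anti j le_sup_left) (Ψ_anti j le_sup_right)
  · rintro A ⟨h1, h2⟩
    let S : Setoid X :=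
      { r := fun x y => Sat A (wT (j x)) (wT (j y))
        iseqv := ⟨fun x v => rfl, fun h v => (h v).symm, fun h h' v => (h v).trans (h' v)⟩ }
    have hS : θ ⊔ θ' ≤ S := by
      refine sup_le ?_ ?_
      · intro x y hxy
        exact h1.2 _ (Or.inr (Or.inr (Or.inr (Or.inr ⟨x, y, hxy, rfl⟩))))
      · intro x y hxy
        exact h2.2 _ (Or.inr (Or.inr (Or.inr (Or.inr ⟨x, y, hxy, rfl⟩))))
    refine ⟨h1.1, ?_⟩
    rintro e (he | he | he | he | ⟨x, y, hxy, rfl⟩)
    · exact h1.2 e (Or.inl he)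
    · exact h1.2 e (Or.inr (Or.inl he))
    · exact h1.2 e (Or.inr (Or.inr (Or.inl he)))
    · exact h1.2 e (Or.inr (Or.inr (Or.inr (Or.inl he))))
    · exact hS hxy

variable (hj : Function.Injective j)
include hj

lemma Ψ_inf (θ θ' : Setoid X) : Ψ j (θ ⊓ θ') = Ψ j θ ⊔ Ψ j θ' := by
  apply le_antisymm
  · rintro A hA K'' ⟨E, rfl⟩ h1 h2
    refine ⟨hA.1, fun e he => ?_⟩
    have r1 := rel_of_sat j hj θ ((h1 (model_mem j hj θ)).2 e he)
    have r2 := rel_of_sat j hj θ' ((h2 (model_mem j hj θ')).2 e he)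
    apply sat_of_rel hA
    rcases r1 with r1 | ⟨a, b, x, y, hab, hxy, e1, e2⟩
    · exact Or.inl r1
    · rcases r2 with r2 | ⟨a', b', x', y', hab', hxy', e1', e2'⟩
      · exact Or.inl r2
      · rw [e1] at e1'
        rw [e2] at e2'
        have h3 := hj (wW_inj (Option.some.inj e1')).2.2
        have h4 := hj (wW_inj (Option.some.inj e2')).2.2
        subst h3 h4
        exact Or.inr ⟨a, b, x, y, hab, ⟨hxy, hxy'⟩, e1, e2⟩
  · exact sup_le (Ψ_anti j inf_le_left) (Ψ_anti j inf_le_right)

lemma le_of_Ψ {θ θ' : Setoid X} (h : Ψ j θ' ≤ Ψ j θ) : θ ≤ θ' := by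
  intro x y hxy
  have h1 := (h (model_mem j hj θ')).2 _ (Or.inr (Or.inr (Or.inr (Or.inr ⟨x, y, hxy, rfl⟩))))
  have h2 := rel_of_sat j hj θ' h1
  rw [nf_wT, nf_wT] at h2
  rcases h2 with h2 | ⟨a, b, x', y', -, hxy', e1, e2⟩
  · have := hj (wW_inj (Option.some.inj h2)).2.2
    subst this
    exact θ'.refl x
  · have h3 := hj (wW_inj (Option.some.inj e1)).2.2
    have h4 := hj (wW_inj (Option.some.inj e2)).2.2
    subst h3 h4
    exact hxy'

lemma eval_Ψ (w : ℕ → Setoid X) (p : LTerm) :
    p.eval (fun n => Ψ j (w n)) = Ψ j (p.dual.eval w) := by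
  induction p with
  | var n => rfl
  | sup s t hs ht =>
    change s.eval _ ⊔ t.eval _ = Ψ j (s.dual.eval w ⊓ t.dual.eval w)
    rw [Ψ_inf j hj, hs, ht]
  | inf s t hs ht =>
    change s.eval _ ⊓ t.eval _ = Ψ j (s.dual.eval w ⊔ t.dual.eval w)
    rw [Ψ_sup j, hs, ht]

end hom

lemma eval_dual {L : Type u} [Lattice L] (v : ℕ → L) (p : LTerm) :
    p.dual.eval (fun n => OrderDual.toDual (v n)) = OrderDual.toDual (p.eval v) := by
  induction p with
  | var n => rfl
  | sup s t hs ht =>
    change s.dual.eval _ ⊓ t.dual.eval _ = _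
    rw [hs, ht]; rfl
  | inf s t hs ht =>
    change s.dual.eval _ ⊔ t.dual.eval _ = _
    rw [hs, ht]; rfl

lemma le_of_identity {p q : LTerm} (h : ∀ v : ℕ → SubIZ, p.eval v = q.eval v)
    {L : Type u} [Lattice L] (v : ℕ → L) : q.eval v ≤ p.eval v := by
  by_contra hcon
  have h1 : ¬ p.dual.eval (fun n => OrderDual.toDual (v n)) ≤
      q.dual.eval (fun n => OrderDual.toDual (v n)) := by
    rw [eval_dual, eval_dual]
    exact fun h => hcon (OrderDual.toDual_le_toDual.1 h)
  obtain ⟨X, _, w, hw⟩ := whitman _ _ _ h1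
  obtain ⟨j, hj⟩ := exists_injective_nat X
  have h2 := h (fun n => Ψ j (w n))
  rw [eval_Ψ j hj, eval_Ψ j hj] at h2
  exact hw (le_of_Ψ j hj (le_of_eq h2.symm))

/-- Every lattice identity that holds in the lattice of the subvarieties of the variety `IZ` of
implication zroupoids holds in all lattices. -/
theorem result (p q : LTerm) (h : ∀ v : ℕ → SubIZ, p.eval v = q.eval v) :
    ∀ (L : Type u) [Lattice L] (v : ℕ → L), p.eval v = q.eval v := fun _ _ v =>
  le_antisymm (le_of_identity (fun v => (h v).symm) v) (le_of_identity h v)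

end Pool.Agent.Results.MP_79490a_al.NoLatticeIdentity
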